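import Pool.Agent.helper53.ORE.Spec

/-!
# Row DQI of project ore: basic facts on the structure `Dq`
-/

set_option autoImplicit false

namespace Pool.Agent.ORE

open Module Pool.Agent.GS

theorem DQI_nd {F K : Type} [Field F] [Finite F] [Field K] [Algebra F K]
    [FiniteDimensional F K] (x : K) (h : ∀ c, Algebra.trace F K (x * c) = 0) : x = 0 := by
  have h1 := traceForm_nondegenerate F K
  exact h1.1 x (fun c => by rw [Algebra.traceForm_apply]; exact h c)

theorem DQI_stab {V : Type} (k : Equiv.Perm V) (v : V) (i r : ℕ) (hr : r.Prime)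
    (hi : (k ^ i) v = v) (hk : k ^ r = 1) (hd : ¬ r ∣ i) : k v = v := by
  have hcop : Nat.gcd i r = 1 := (Nat.Coprime.symm ((Nat.Prime.coprime_iff_not_dvd hr).2 hd))
  have h1 : k ^ i ∈ MulAction.stabilizer (Equiv.Perm V) v := hi
  have h2 : k ^ r ∈ MulAction.stabilizer (Equiv.Perm V) v := by
    rw [hk]
    exact Subgroup.one_mem _
  have h3 : (k ^ i) ^ (Nat.gcdA i r) * (k ^ r) ^ (Nat.gcdB i r) ∈
      MulAction.stabilizer (Equiv.Perm V) v :=
    Subgroup.mul_mem _ (Subgroup.zpow_mem _ h1 _) (Subgroup.zpow_mem _ h2 _)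
  have h4 : (k ^ i) ^ (Nat.gcdA i r) * (k ^ r) ^ (Nat.gcdB i r) = k := by
    rw [← zpow_natCast k i, ← zpow_natCast k r, ← zpow_mul, ← zpow_mul, ← zpow_add,
      ← Nat.gcd_eq_gcd_ab, hcop]
    simp
  rw [h4] at h3
  exact h3

theorem DQI (_bf : GS.BF_stmt) : DQI_stmt := by
  intro F V K _ _ _ _ _ _ _ _ Q h2 k hk σ j hD
  have h2K : (2 : K) = 0 := by
    have h0 : algebraMap F K 2 = 0 := by rw [h2, map_zero]
    rwa [map_ofNat] at h0
  have hk1 := hk.1.1
  have hk0 : k 0 = 0 := by
    have := hk.1.2 0 0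
    rwa [zero_smul, zero_smul] at this
  have A1 : ∀ c c', pb Q (j c) (j c') = 0 := by
    intro c c'
    have e1 := hD.q (c + c')
    rw [map_add, Q_add, hD.q, hD.q] at e1
    have e2 : (c + c') ^ 2 = c ^ 2 + c' ^ 2 := by linear_combination (c * c') * h2K
    rw [e2, map_add] at e1
    linear_combination e1
  have A2 : ∀ c, k (k (j c)) = k (j (σ * c)) + j c := by
    intro c
    rw [← hD.s c, hk1]
    have e1 : k (k⁻¹ (j c)) = j c := by
      rw [← Equiv.Perm.mul_apply, mul_inv_cancel]
      rfl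
    rw [e1, add_assoc, addV h2, add_zero]
  have A3 : ∀ x y, j x + k (j y) = 0 → x = 0 ∧ y = 0 := by
    intro x y h
    have hy : y = 0 := by
      have e1 : σ * y = 0 := by
        apply DQI_nd (F := F)
        intro c
        have e2 : pb Q (j x + k (j y)) (j c) = 0 := by
          rw [h, map_zero, LinearMap.zero_apply]
        rw [map_add, LinearMap.add_apply, A1, hD.f, zero_add] at e2
        exact e2
      exact (mul_eq_zero.1 e1).resolve_left hD.s0
    refine ⟨?_, hy⟩
    rw [hy, map_zero, hk0, add_zero] at h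
    have e1 : σ * x = 0 := by
      apply DQI_nd (F := F)
      intro c
      rw [← hD.f, h, hk0, map_zero, LinearMap.zero_apply]
    exact (mul_eq_zero.1 e1).resolve_left hD.s0
  have A4 : ∀ x y, k (j x + k (j y)) = j x + k (j y) → x = 0 ∧ y = 0 := by
    intro x y h
    rw [hk1, A2] at h
    have e1 : j (x + y) + k (j (x + σ * y + y)) = 0 := by
      rw [map_add j x y, map_add j (x + σ * y) y, map_add j x (σ * y), hk1, hk1]
      have e2 : j x + j y + (k (j x) + k (j (σ * y)) + k (j y)) =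
          (k (j x) + (k (j (σ * y)) + j y)) + (j x + k (j y)) := by abel
      rw [e2, h, addV h2]
    obtain ⟨e3, e4⟩ := A3 _ _ e1
    have e5 : σ * y = 0 := by linear_combination e4 - e3
    have e6 : y = 0 := (mul_eq_zero.1 e5).resolve_left hD.s0
    refine ⟨?_, e6⟩
    rw [e6, add_zero] at e3
    exact e3
  refine ⟨A1, A2, A3, A4, ?_⟩
  intro r hr hkr i hi
  by_contra hd
  have e1 := DQI_stab k (j 1) i r hr (hi 1) hkr hd
  have e2 := (A4 1 0 (by rw [map_zero, hk0, add_zero]; exact e1)).1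
  exact one_ne_zero e2

end Pool.Agent.ORE
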